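import Mathlib

/-!
Second directional derivatives of smooth functions of two real variables.
-/

set_option autoImplicit false

open Set MeasureTheory Filter Topology
open scoped ContDiff

namespace Pool.Agent.Lib.MP_034ae1_an

/-- The Euclidean plane. -/
abbrev Pl := EuclideanSpace ℝ (Fin 2)

/-- Second directional derivative of `f` at `z` in the direction `v`. -/
noncomputable def D2 (f : Pl → ℝ) (z v : Pl) : ℝ :=
  fderiv ℝ (fun w => fderiv ℝ f w v) z v

theorem contDiff_D1 {f : Pl → ℝ} (hf : ContDiff ℝ ∞ f) (v : Pl) :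
    ContDiff ℝ ∞ (fun w => fderiv ℝ f w v) := by
  have h : ContDiff ℝ ∞ (fderiv ℝ f) := hf.fderiv_right (by norm_num)
  exact h.clm_apply contDiff_const

theorem D2_eq {f : Pl → ℝ} (hf : ContDiff ℝ ∞ f) (z v : Pl) :
    D2 f z v = fderiv ℝ (fderiv ℝ f) z v v := by
  have h : ContDiff ℝ ∞ (fderiv ℝ f) := hf.fderiv_right (by norm_num)
  have hd : DifferentiableAt ℝ (fderiv ℝ f) z := (h.differentiable (by norm_num)) z
  unfold D2
  rw [fderiv_clm_apply hd (differentiableAt_const v)]
  simp

theorem continuous_D2 {f : Pl → ℝ} (hf : ContDiff ℝ ∞ f) :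
    Continuous (fun p : Pl × Pl => D2 f p.1 p.2) := by
  have h : ContDiff ℝ ∞ (fderiv ℝ f) := hf.fderiv_right (by norm_num)
  have h2 : Continuous (fderiv ℝ (fderiv ℝ f)) := h.continuous_fderiv (by norm_num)
  have h3 : (fun p : Pl × Pl => D2 f p.1 p.2) =
      fun p : Pl × Pl => fderiv ℝ (fderiv ℝ f) p.1 p.2 p.2 := by
    funext p
    exact D2_eq hf p.1 p.2
  rw [h3]
  exact ((h2.comp continuous_fst).clm_apply continuous_snd).clm_apply continuous_snd

theorem D2_smul {f : Pl → ℝ} (hf : ContDiff ℝ ∞ f) (z v : Pl) (c : ℝ) :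
    D2 f z (c • v) = c ^ 2 * D2 f z v := by
  rw [D2_eq hf, D2_eq hf]
  simp
  ring

theorem D2_congr {f g : Pl → ℝ} {z : Pl} (h : f =ᶠ[𝓝 z] g) (v : Pl) : D2 f z v = D2 g z v := by
  unfold D2
  have h1 : (fun w => fderiv ℝ f w v) =ᶠ[𝓝 z] (fun w => fderiv ℝ g w v) := by
    have := h.fderiv (𝕜 := ℝ)
    exact this.mono (fun w hw => by simp [hw])
  rw [h1.fderiv_eq]

theorem D2_add {f g : Pl → ℝ} (hf : ContDiff ℝ ∞ f) (hg : ContDiff ℝ ∞ g) (z v : Pl) :
    D2 (fun w => f w + g w) z v = D2 f z v + D2 g z v := by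
  unfold D2
  have h1 : (fun w => fderiv ℝ (fun w => f w + g w) w v) =
      fun w => fderiv ℝ f w v + fderiv ℝ g w v := by
    funext w
    rw [fderiv_fun_add (hf.differentiable (by norm_num) w) (hg.differentiable (by norm_num) w)]
    simp
  rw [h1, fderiv_fun_add ((contDiff_D1 hf v).differentiable (by norm_num) z)
    ((contDiff_D1 hg v).differentiable (by norm_num) z)]
  simp

theorem D2_mul {f g : Pl → ℝ} (hf : ContDiff ℝ ∞ f) (hg : ContDiff ℝ ∞ g) (z v : Pl) :
    D2 (fun w => f w * g w) z v =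
      D2 f z v * g z + 2 * (fderiv ℝ f z v * fderiv ℝ g z v) + f z * D2 g z v := by
  unfold D2
  have hf1 := contDiff_D1 hf v
  have hg1 := contDiff_D1 hg v
  have h1 : (fun w => fderiv ℝ (fun w => f w * g w) w v) =
      fun w => f w * fderiv ℝ g w v + g w * fderiv ℝ f w v := by
    funext w
    rw [fderiv_fun_mul (hf.differentiable (by norm_num) w) (hg.differentiable (by norm_num) w)]
    simp
  rw [h1, fderiv_fun_add
    ((hf.mul hg1).differentiable (by norm_num) z)
    ((hg.mul hf1).differentiable (by norm_num) z),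
    fderiv_fun_mul (hf.differentiable (by norm_num) z) (hg1.differentiable (by norm_num) z),
    fderiv_fun_mul (hg.differentiable (by norm_num) z) (hf1.differentiable (by norm_num) z)]
  simp
  ring

/-- One-dimensional second derivative of `f` along a line. -/
theorem deriv_line {f : Pl → ℝ} (hf : ContDiff ℝ ∞ f) (x v : Pl) (t : ℝ) :
    HasDerivAt (fun t : ℝ => f (x + t • v)) (fderiv ℝ f (x + t • v) v) t := by
  have h1 : HasFDerivAt f (fderiv ℝ f (x + t • v)) (x + t • v) :=
    (hf.differentiable (by norm_num) _).hasFDerivAt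
  have h2 : HasDerivAt (fun t : ℝ => x + t • v) v t := by
    have := ((hasDerivAt_id t).smul_const v).const_add x
    simpa using this
  exact h1.comp_hasDerivAt t h2

theorem convexOn_of_D2_nonneg {f : Pl → ℝ} (hf : ContDiff ℝ ∞ f) {V : Set Pl}
    (hV : Convex ℝ V) (h : ∀ z ∈ V, ∀ v, 0 ≤ D2 f z v) : ConvexOn ℝ V f := by
  refine ⟨hV, ?_⟩
  intro x hx y hy a b ha hb hab
  set v : Pl := y - x with hv
  have hd1 : ∀ t : ℝ, HasDerivAt (fun t : ℝ => f (x + t • v)) (fderiv ℝ f (x + t • v) v) t :=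
    fun t => deriv_line hf x v t
  have hderiv : deriv (fun t : ℝ => f (x + t • v)) = fun t => fderiv ℝ f (x + t • v) v := by
    funext t
    exact (hd1 t).deriv
  have hd2 : ∀ t : ℝ, HasDerivAt (fun t : ℝ => fderiv ℝ f (x + t • v) v)
      (D2 f (x + t • v) v) t := by
    intro t
    exact deriv_line (contDiff_D1 hf v) x v t
  have hconv : ConvexOn ℝ (Icc (0:ℝ) 1) (fun t : ℝ => f (x + t • v)) := by
    apply convexOn_of_deriv2_nonneg (convex_Icc 0 1)
    · exact fun t _ => (hd1 t).continuousAt.continuousWithinAt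
    · exact fun t _ => (hd1 t).differentiableAt.differentiableWithinAt
    · rw [hderiv]
      exact fun t _ => (hd2 t).differentiableAt.differentiableWithinAt
    · intro t ht
      rw [interior_Icc] at ht
      have : deriv^[2] (fun t : ℝ => f (x + t • v)) t = D2 f (x + t • v) v := by
        simp only [Function.iterate_succ, Function.iterate_zero, Function.comp, id]
        rw [hderiv]
        exact (hd2 t).deriv
      rw [this]
      apply h
      have : x + t • v = (1 - t) • x + t • y := by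
        rw [hv]; module
      rw [this]
      exact hV hx hy (by linarith [ht.2]) ht.1.le (by ring)
  have := hconv.2 (left_mem_Icc.2 zero_le_one) (right_mem_Icc.2 zero_le_one) ha hb hab
  simp only [smul_eq_mul, mul_zero, mul_one, zero_add, zero_smul, add_zero, one_smul] at this
  have h3 : a • x + b • y = x + b • v := by
    have : a = 1 - b := by linarith
    rw [this, hv]; module
  rw [h3]
  have h4 : x + v = y := by rw [hv]; abel
  rw [h4] at this
  simpa using this

/-- The set where the Hessian fails to be positive definite. -/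
def Bad (f : Pl → ℝ) : Set Pl := {z | ∃ v ∈ Metric.sphere (0 : Pl) 1, D2 f z v ≤ 0}

theorem isClosed_Bad {f : Pl → ℝ} (hf : ContDiff ℝ ∞ f) : IsClosed (Bad f) := by
  have hS : IsCompact (Metric.sphere (0 : Pl) 1) := isCompact_sphere 0 1
  have : CompactSpace (Metric.sphere (0 : Pl) 1) := isCompact_iff_compactSpace.1 hS
  have h1 : IsClosed {p : Pl × Metric.sphere (0 : Pl) 1 | D2 f p.1 p.2 ≤ 0} := by
    apply isClosed_le _ continuous_const
    have := (continuous_D2 hf).comp
      (continuous_fst.prodMk (continuous_subtype_val.comp continuous_snd) :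
        Continuous (fun p : Pl × Metric.sphere (0 : Pl) 1 => (p.1, (p.2 : Pl))))
    exact this
  have h2 := isClosedMap_fst_of_compactSpace _ h1
  convert h2 using 1
  ext z
  simp only [Bad, mem_ofPred_eq, mem_image, Prod.exists, Subtype.exists]
  constructor
  · rintro ⟨v, hv, hz⟩
    exact ⟨z, v, hv, hz, rfl⟩
  · rintro ⟨w, v, hv, hz, rfl⟩
    exact ⟨v, hv, hz⟩

theorem D2_pos_of_not_Bad {f : Pl → ℝ} (hf : ContDiff ℝ ∞ f) {z : Pl} (hz : z ∉ Bad f) {v : Pl}
    (hv : v ≠ 0) : 0 < D2 f z v := by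
  have hn : ‖v‖ ≠ 0 := norm_ne_zero_iff.2 hv
  have h1 : (‖v‖⁻¹ • v) ∈ Metric.sphere (0 : Pl) 1 := by
    simp [norm_smul, hn]
  have h2 : 0 < D2 f z (‖v‖⁻¹ • v) := by
    by_contra hc
    exact hz ⟨_, h1, not_lt.1 hc⟩
  rw [D2_smul hf] at h2
  have h3 : 0 < (‖v‖⁻¹) ^ 2 := by positivity
  exact (pos_iff_pos_of_mul_pos h2).1 h3

theorem convexOn_of_disjoint_Bad {f : Pl → ℝ} (hf : ContDiff ℝ ∞ f) {V : Set Pl}
    (hV : Convex ℝ V) (h : Disjoint V (Bad f)) : ConvexOn ℝ V f := by
  apply convexOn_of_D2_nonneg hf hV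
  intro z hz v
  by_cases hv : v = 0
  · subst hv
    have := D2_smul hf z 0 0
    simp at this
    rw [this]
  · exact (D2_pos_of_not_Bad hf (Set.disjoint_left.1 h hz) hv).le

end Pool.Agent.Lib.MP_034ae1_an
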