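import Pool.Agent.Lib.MP_034ae1_an.MW

/-!
The full step: small perturbation, small measure, small pieces.
-/

set_option autoImplicit false

open Set MeasureTheory Filter Topology
open scoped ContDiff

namespace Pool.Agent.Lib.MP_034ae1_an

/-- Every point of `B` has a small open neighbourhood whose frontier misses `B`. -/
def Cut (ε : ℝ) (B : Set Pl) : Prop :=
  ∀ z ∈ B, ∃ P : Set Pl, IsOpen P ∧ z ∈ P ∧ (∀ w ∈ P, dist w z ≤ ε) ∧ Disjoint (frontier P) B

theorem Cut.mono {ε : ℝ} {B C : Set Pl} (h : Cut ε C) (hBC : B ⊆ C) : Cut ε B := by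
  intro z hz
  obtain ⟨P, h1, h2, h3, h4⟩ := h z (hBC hz)
  exact ⟨P, h1, h2, h3, h4.mono_right hBC⟩

theorem isOpen_avoid (ℓ : Pl →L[ℝ] ℝ) (δ : ℝ) : IsOpen {z : Pl | ∀ n : ℤ, ℓ z / δ ≠ n} := by
  have h1 : IsClosed (Set.range ((↑) : ℤ → ℝ)) := Int.isClosedEmbedding_coe_real.isClosed_range
  have h2 : {z : Pl | ∀ n : ℤ, ℓ z / δ ≠ n} =
      (fun z : Pl => ℓ z / δ) ⁻¹' (Set.range ((↑) : ℤ → ℝ))ᶜ := by
    ext z
    simp only [mem_ofPred_eq, mem_preimage, mem_compl_iff, mem_range, not_exists]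
    constructor
    · intro h n hn
      exact h n hn.symm
    · intro h n hn
      exact h n hn.symm
  rw [h2]
  exact h1.isOpen_compl.preimage (ℓ.continuous.div_const δ)

theorem dist_le_coords (z w : Pl) : dist w z ≤ |w 0 - z 0| + |w 1 - z 1| := by
  rw [EuclideanSpace.dist_eq, Fin.sum_univ_two, Real.dist_eq, Real.dist_eq]
  apply Real.sqrt_le_iff.2
  refine ⟨by positivity, ?_⟩
  have h1 := abs_nonneg (w 0 - z 0)
  have h2 := abs_nonneg (w 1 - z 1)
  nlinarith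

/-- Strips between consecutive integer level lines. -/
def strip (ℓ : Pl →L[ℝ] ℝ) (δ : ℝ) (n : ℤ) : Set Pl := {z | (n : ℝ) < ℓ z / δ ∧ ℓ z / δ < n + 1}

theorem isOpen_strip (ℓ : Pl →L[ℝ] ℝ) (δ : ℝ) (n : ℤ) : IsOpen (strip ℓ δ n) := by
  have hc : Continuous (fun z : Pl => ℓ z / δ) := ℓ.continuous.div_const δ
  exact (isOpen_lt continuous_const hc).inter (isOpen_lt hc continuous_const)

theorem frontier_strip (ℓ : Pl →L[ℝ] ℝ) (δ : ℝ) (n : ℤ) :
    frontier (strip ℓ δ n) ⊆ {z | ∃ m : ℤ, ℓ z / δ = m} := by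
  have hc : Continuous (fun z : Pl => ℓ z / δ) := ℓ.continuous.div_const δ
  intro z hz
  rw [frontier, (isOpen_strip ℓ δ n).interior_eq] at hz
  have h1 : closure (strip ℓ δ n) ⊆ {z | (n : ℝ) ≤ ℓ z / δ ∧ ℓ z / δ ≤ n + 1} := by
    apply closure_minimal
    · intro w hw
      exact ⟨hw.1.le, hw.2.le⟩
    · exact (isClosed_le continuous_const hc).inter (isClosed_le hc continuous_const)
  have h2 := h1 hz.1
  by_contra hcon
  simp only [mem_ofPred_eq, not_exists] at hcon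
  apply hz.2
  refine ⟨lt_of_le_of_ne h2.1 (fun h => hcon n h.symm), lt_of_le_of_ne h2.2 (fun h => ?_)⟩
  apply hcon (n + 1)
  push_cast
  exact h

theorem frontier_inter_subset' (A B : Set Pl) : frontier (A ∩ B) ⊆ frontier A ∪ frontier B :=
  (frontier_inter_subset A B).trans
    (union_subset_union inter_subset_left inter_subset_right)

theorem mem_strip {ℓ : Pl →L[ℝ] ℝ} {δ : ℝ} {z : Pl} (h : ∀ n : ℤ, ℓ z / δ ≠ n) :
    z ∈ strip ℓ δ ⌊ℓ z / δ⌋ :=
  ⟨lt_of_le_of_ne (Int.floor_le _) (fun h' => h _ h'.symm), Int.lt_floor_add_one _⟩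

theorem strip_diff {ℓ : Pl →L[ℝ] ℝ} {δ : ℝ} (hδ : 0 < δ) {n : ℤ} {z w : Pl}
    (hz : z ∈ strip ℓ δ n) (hw : w ∈ strip ℓ δ n) : |ℓ w - ℓ z| ≤ δ := by
  obtain ⟨h1, h2⟩ := hz
  obtain ⟨h3, h4⟩ := hw
  rw [lt_div_iff₀ hδ] at h1 h3
  rw [div_lt_iff₀ hδ] at h2 h4
  rw [abs_le]
  constructor <;> linarith

/-- The slanted functional `x + η y`. -/
noncomputable def slant (η : ℝ) : Pl →L[ℝ] ℝ :=
  (EuclideanSpace.proj (0 : Fin 2) : Pl →L[ℝ] ℝ) + η • (EuclideanSpace.proj (1 : Fin 2) : Pl →L[ℝ] ℝ)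

theorem slant_apply (η : ℝ) (z : Pl) : slant η z = z 0 + η * z 1 := rfl

theorem exists_slant {f : Pl → ℝ} (hf : State f) :
    ∃ η : ℝ, 0 < η ∧ η ≤ 1 ∧
      ∀ z ∈ Bad f, ∀ v ∈ Metric.sphere (0 : Pl) 1, slant η v = 0 → 0 < D2 f z v := by
  have hc : Continuous (fun p : Pl × ℝ => D2 f p.1 (e2 - p.2 • e1)) := by
    have h0 : Continuous (fun p : Pl × ℝ => (p.1, e2 - p.2 • e1)) :=
      continuous_fst.prodMk (continuous_const.sub (continuous_snd.smul continuous_const))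
    exact (continuous_D2 hf.smooth).comp h0
  -- tube lemma
  have hopen : IsOpen {p : Pl × ℝ | 0 < D2 f p.1 (e2 - p.2 • e1)} := isOpen_lt continuous_const hc
  have hsub : Bad f ×ˢ ({0} : Set ℝ) ⊆ {p : Pl × ℝ | 0 < D2 f p.1 (e2 - p.2 • e1)} := by
    rintro ⟨z, t⟩ ⟨_, ht⟩
    simp only [mem_singleton_iff] at ht
    simp only [mem_ofPred_eq, ht, zero_smul, sub_zero]
    exact hf.pos z
  obtain ⟨U, V, hU, hV, hBU, h0V, hUV⟩ :=
    generalized_tube_lemma hf.compactBad isCompact_singleton hopen hsub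
  obtain ⟨r, hr, hrV⟩ := Metric.isOpen_iff.1 hV 0 (h0V rfl)
  refine ⟨min 1 (r / 2), by positivity, min_le_left _ _, ?_⟩
  intro z hz v hv hv0
  set η := min 1 (r / 2) with hη
  have hηV : η ∈ V := by
    apply hrV
    rw [Metric.mem_ball, Real.dist_eq, sub_zero, abs_of_pos (by positivity)]
    exact lt_of_le_of_lt (min_le_right _ _) (by linarith)
  have h1 : 0 < D2 f z (e2 - η • e1) := hUV (Set.mk_mem_prod (hBU hz) hηV)
  rw [slant_apply] at hv0
  have h2 : v = v 1 • (e2 - η • e1) := by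
    conv_lhs => rw [eq_comb v]
    have : v 0 = -(η * v 1) := by linarith
    rw [this]
    module
  have h3 : v 1 ≠ 0 := by
    intro h
    rw [h] at h2
    simp only [zero_smul] at h2
    subst h2
    simp at hv
  rw [h2, D2_smul hf.smooth]
  positivity

theorem Near.trans {ε ε' : ℝ} {f g h : Pl → ℝ} (h1 : Near ε f g) (h2 : Near ε' g h) :
    Near (ε + ε') f h := by
  constructor
  · intro z
    calc |h z - f z| = |(g z - f z) + (h z - g z)| := by ring_nf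
      _ ≤ |g z - f z| + |h z - g z| := abs_add_le _ _
      _ ≤ ε + ε' := add_le_add (h1.1 z) (h2.1 z)
  · intro z
    calc ‖fderiv ℝ h z - fderiv ℝ f z‖
        = ‖(fderiv ℝ g z - fderiv ℝ f z) + (fderiv ℝ h z - fderiv ℝ g z)‖ := by
          congr 1; abel
      _ ≤ ‖fderiv ℝ g z - fderiv ℝ f z‖ + ‖fderiv ℝ h z - fderiv ℝ g z‖ := norm_add_le _ _
      _ ≤ ε + ε' := add_le_add (h1.2 z) (h2.2 z)

theorem Near.mono {ε ε' : ℝ} {f g : Pl → ℝ} (h1 : Near ε f g) (h : ε ≤ ε') : Near ε' f g :=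
  ⟨fun z => (h1.1 z).trans h, fun z => (h1.2 z).trans h⟩

theorem full_step {f : Pl → ℝ} (hf : State f) {N : Set Pl} (hN : IsOpen N) (hBN : Bad f ⊆ N)
    {ε : ℝ} (hε : 0 < ε) :
    ∃ f' : Pl → ℝ, State f' ∧ Near ε f f' ∧ (∀ z, z ∉ N → f' z = f z) ∧ Bad f' ⊆ N ∧
      volume (Bad f') < ENNReal.ofReal ε ∧ Cut ε (Bad f') := by
  -- first step
  obtain ⟨f1, hf1, hn1, ho1, hB1, hv1⟩ := stepM hf hN hBN (ε := ε / 4) (by positivity)
  have hv1' : volume (Bad f1) < ENNReal.ofReal ε :=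
    lt_of_le_of_lt hv1 ((ENNReal.ofReal_lt_ofReal_iff hε).2 (by linarith))
  obtain ⟨U1, hBU1, hU1o, hU1v⟩ := hf1.compactBad.exists_isOpen_lt_of_lt _ hv1'
  set N1 : Set Pl := U1 ∩ N with hN1
  have hN1o : IsOpen N1 := hU1o.inter hN
  have hBN1 : Bad f1 ⊆ N1 := subset_inter hBU1 hB1
  -- slanted walls
  obtain ⟨η, hη, hη1, hslant⟩ := exists_slant hf1
  obtain ⟨f2, hf2, hn2, ho2, hB2, δ2, hδ2, hδ2ε, hw2⟩ := stepW hf1 hN1o hBN1 (slant η) hslant
    (ε := ε * η / 4) (by positivity)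
  set N2 : Set Pl := N1 ∩ {z | ∀ n : ℤ, slant η z / δ2 ≠ n} with hN2
  have hN2o : IsOpen N2 := hN1o.inter (isOpen_avoid _ _)
  have hBN2 : Bad f2 ⊆ N2 := subset_inter hB2 hw2
  -- vertical walls
  obtain ⟨f3, hf3, hn3, ho3, hB3, δ3, hδ3, hδ3ε, hw3⟩ := stepW hf2 hN2o hBN2
    (EuclideanSpace.proj (0 : Fin 2)) hf2.proj0 (ε := ε * η / 4) (by positivity)
  have hεη : ε * η ≤ ε := by nlinarith
  refine ⟨f3, hf3, ?_, ?_, ?_, ?_, ?_⟩
  · exact ((hn1.trans hn2).trans hn3).mono (by linarith)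
  · intro z hz
    have hz1 : z ∉ N1 := fun h => hz h.2
    have hz2 : z ∉ N2 := fun h => hz1 h.1
    rw [ho3 z hz2, ho2 z hz1, ho1 z hz]
  · exact hB3.trans (fun z hz => hz.1.2)
  · exact lt_of_le_of_lt (measure_mono (hB3.trans (fun z hz => hz.1.1))) hU1v
  · intro z hz
    have ha := hw3 z hz
    have hb := (hB3 hz).2
    refine ⟨strip (EuclideanSpace.proj (0 : Fin 2)) δ3 _ ∩ strip (slant η) δ2 _,
      (isOpen_strip _ _ _).inter (isOpen_strip _ _ _), ⟨mem_strip ha, mem_strip hb⟩, ?_, ?_⟩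
    · rintro w ⟨hw1, hw2'⟩
      have h1 := strip_diff hδ3 (mem_strip ha) hw1
      have h2 := strip_diff hδ2 (mem_strip hb) hw2'
      rw [proj0_apply, proj0_apply] at h1
      rw [slant_apply, slant_apply] at h2
      have h3 : η * |w 1 - z 1| ≤ ε * η / 4 + ε * η / 4 := by
        have : η * |w 1 - z 1| = |η * (w 1 - z 1)| := by rw [abs_mul, abs_of_pos hη]
        rw [this]
        calc |η * (w 1 - z 1)| = |(w 0 + η * w 1 - (z 0 + η * z 1)) - (w 0 - z 0)| := by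
              congr 1; ring
          _ ≤ |w 0 + η * w 1 - (z 0 + η * z 1)| + |w 0 - z 0| := abs_sub _ _
          _ ≤ _ := by linarith
      have h4 : |w 1 - z 1| ≤ ε / 2 := by
        by_contra hcon
        rw [not_le] at hcon
        have := mul_lt_mul_of_pos_left hcon hη
        linarith
      have h5 := dist_le_coords z w
      linarith
    · rw [Set.disjoint_left]
      intro w hw hwB
      rcases frontier_inter_subset' _ _ hw with h | h
      · obtain ⟨m, hm⟩ := frontier_strip _ _ _ h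
        exact hw3 w hwB m hm
      · obtain ⟨m, hm⟩ := frontier_strip _ _ _ h
        exact (hB3 hwB).2 m hm

end Pool.Agent.Lib.MP_034ae1_an
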