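import Pool.Agent.Lib.MP_034ae1_an.Full

/-!
Iteration of the full step and passage to the limit.
-/

set_option autoImplicit false

open Set MeasureTheory Filter Topology
open scoped ContDiff

namespace Pool.Agent.Lib.MP_034ae1_an

theorem exists_cut_nhds {B : Set Pl} (hB : IsCompact B) {ε : ℝ} (h : Cut ε B) :
    ∃ V : Set Pl, IsOpen V ∧ B ⊆ V ∧ Cut (2 * ε) V := by
  choose! P hPo hzP hPd hPf using h
  obtain ⟨t, htB, hcov⟩ := hB.elim_nhds_subcover P (fun z hz => (hPo z hz).mem_nhds (hzP z hz))
  refine ⟨(⋃ z ∈ t, P z) ∩ (⋂ z ∈ t, (frontier (P z))ᶜ), ?_, ?_, ?_⟩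
  · apply IsOpen.inter
    · exact isOpen_biUnion (fun z hz => hPo z (htB z hz))
    · exact isOpen_biInter_finset (fun z _ => isClosed_frontier.isOpen_compl)
  · intro z hz
    refine ⟨hcov hz, ?_⟩
    simp only [mem_iInter, mem_compl_iff]
    intro y hy hzy
    exact Set.disjoint_left.1 (hPf y (htB y hy)) hzy hz
  · rintro w ⟨hw1, hw2⟩
    simp only [mem_iUnion] at hw1
    obtain ⟨z, hz, hwz⟩ := hw1
    refine ⟨P z, hPo z (htB z hz), hwz, ?_, ?_⟩
    · intro w' hw'
      calc dist w' w ≤ dist w' z + dist w z := dist_triangle_right _ _ _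
        _ ≤ 2 * ε := by
          have h1 := hPd z (htB z hz) w' hw'
          have h2 := hPd z (htB z hz) w hwz
          linarith
    · rw [Set.disjoint_left]
      intro y hy hyV
      have := hyV.2
      simp only [mem_iInter, mem_compl_iff] at this
      exact this z hz hy

/-- A stage of the construction. -/
structure Stage where
  f : Pl → ℝ
  N : Set Pl
  st : State f
  isOpen : IsOpen N
  bad : Bad f ⊆ N

theorem next (s : Stage) {ε : ℝ} (hε : 0 < ε) :
    ∃ s' : Stage, Near ε s.f s'.f ∧ (∀ z, z ∉ s.N → s'.f z = s.f z) ∧ closure s'.N ⊆ s.N ∧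
      IsCompact (closure s'.N) ∧ volume (closure s'.N) ≤ ENNReal.ofReal ε ∧
      Cut (2 * ε) (closure s'.N) := by
  obtain ⟨f', hf', hn, ho, hB, hv, hc⟩ := full_step s.st s.isOpen s.bad hε
  obtain ⟨U, hBU, hUo, hUv⟩ := hf'.compactBad.exists_isOpen_lt_of_lt _ hv
  obtain ⟨V, hVo, hBV, hVc⟩ := exists_cut_nhds hf'.compactBad hc
  obtain ⟨W, hWo, hBW, hWs, hWc⟩ := exists_open_between_and_isCompact_closure hf'.compactBad
    ((hUo.inter hVo).inter s.isOpen) (subset_inter (subset_inter hBU hBV) hB)
  refine ⟨⟨f', W, hf', hWo, hBW⟩, hn, ho, hWs.trans inter_subset_right, hWc, ?_, ?_⟩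
  · exact (measure_mono (fun z hz => (hWs hz).1.1)).trans hUv.le
  · exact hVc.mono (fun z hz => (hWs hz).1.2)

/-- The sequence of tolerances. -/
noncomputable def eps (n : ℕ) : ℝ := (1 / 100) * (1 / 2) ^ n

theorem eps_pos (n : ℕ) : 0 < eps n := by unfold eps; positivity

/-- The sequence of stages. -/
noncomputable def stages (s0 : Stage) : ℕ → Stage
  | 0 => s0
  | n + 1 => Classical.choose (next (stages s0 n) (eps_pos n))

theorem stages_spec (s0 : Stage) (n : ℕ) :
    Near (eps n) (stages s0 n).f (stages s0 (n + 1)).f ∧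
      (∀ z, z ∉ (stages s0 n).N → (stages s0 (n + 1)).f z = (stages s0 n).f z) ∧
      closure (stages s0 (n + 1)).N ⊆ (stages s0 n).N ∧
      IsCompact (closure (stages s0 (n + 1)).N) ∧
      volume (closure (stages s0 (n + 1)).N) ≤ ENNReal.ofReal (eps n) ∧
      Cut (2 * eps n) (closure (stages s0 (n + 1)).N) :=
  Classical.choose_spec (next (stages s0 n) (eps_pos n))

theorem totallyDisconnected_of_cut {E : Set Pl} (h : ∀ n, Cut (2 * eps n) E) :
    IsTotallyDisconnected E := by
  intro C hCE hC x hx y hy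
  by_contra hne
  have hpos : 0 < dist y x := dist_pos.2 (Ne.symm hne)
  have hlim : Tendsto (fun n => 2 * eps n) atTop (𝓝 0) := by
    have h1 : Tendsto (fun n : ℕ => ((1:ℝ) / 2) ^ n) atTop (𝓝 0) :=
      tendsto_pow_atTop_nhds_zero_of_lt_one (by norm_num) (by norm_num)
    have := h1.const_mul (2 * (1 / 100))
    simp only [mul_zero] at this
    convert this using 2
    unfold eps
    ring
  obtain ⟨n, hn⟩ := (hlim.eventually (gt_mem_nhds hpos)).exists
  obtain ⟨P, hPo, hxP, hPd, hPf⟩ := h n x (hCE hx)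
  have hyP : y ∉ P := fun hyP => absurd (hPd y hyP) (not_le.2 hn)
  -- the sets `P` and the complement of its closure separate `C`
  have hsub : C ⊆ P ∪ (closure P)ᶜ := by
    intro z hz
    by_cases hzP : z ∈ P
    · exact Or.inl hzP
    · right
      intro hzc
      apply Set.disjoint_left.1 hPf _ (hCE hz)
      rw [frontier, hPo.interior_eq]
      exact ⟨hzc, hzP⟩
  have hyc : y ∈ (closure P)ᶜ := (hsub hy).resolve_left hyP
  obtain ⟨z, hzC, hz1, hz2⟩ := hC P (closure P)ᶜ hPo isClosed_closure.isOpen_compl hsub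
    ⟨x, hx, hxP⟩ ⟨y, hy, hyc⟩
  exact hz2 (subset_closure hz1)

theorem limit_exists (s0 : Stage) :
    ∃ E : Set Pl, IsCompact E ∧ IsTotallyDisconnected E ∧ volume E = 0 ∧
      ∃ F : Pl → ℝ, ContDiff ℝ 1 F ∧ (∀ z, |F z - s0.f z| ≤ 1 / 50) ∧
        ∀ z, z ∉ E → ∃ V : Set Pl, IsOpen V ∧ Convex ℝ V ∧ z ∈ V ∧ V ⊆ Eᶜ ∧ ConvexOn ℝ V F := by
  set S := stages s0 with hS
  have hspec := stages_spec s0
  rw [← hS] at hspec
  -- nestedness
  have hcl : ∀ n, closure (S (n + 1)).N ⊆ (S n).N := fun n => (hspec n).2.2.1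
  have hanti : ∀ n, closure (S (n + 2)).N ⊆ closure (S (n + 1)).N := fun n =>
    (hcl (n + 1)).trans subset_closure
  have hanti' : Antitone (fun n => closure (S (n + 1)).N) := antitone_nat_of_succ_le hanti
  set E : Set Pl := ⋂ n, closure (S (n + 1)).N with hE
  have hEc : IsCompact E := by
    apply (hspec 0).2.2.2.1.of_isClosed_subset (isClosed_iInter (fun n => isClosed_closure))
    exact iInter_subset _ 0
  -- pointwise stabilisation away from `E`
  have hstab : ∀ n z, z ∉ (S n).N → ∀ k, (S (n + k)).f z = (S n).f z := by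
    intro n z hz k
    have hmem : ∀ k, z ∉ (S (n + k)).N := by
      intro k
      induction k with
      | zero => exact hz
      | succ k ih =>
        intro h
        exact ih (hcl (n + k) (subset_closure h))
    induction k with
    | zero => rfl
    | succ k ih =>
      rw [← ih]
      exact (hspec (n + k)).2.1 z (hmem k)
  -- the limit
  have hdist : ∀ z, ∀ n, dist ((S n).f z) ((S (n + 1)).f z) ≤ (1 / 100) * (1 / 2) ^ n := by
    intro z n
    rw [dist_comm, Real.dist_eq]
    exact (hspec n).1.1 z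
  have hdist' : ∀ z, ∀ n, dist (fderiv ℝ (S n).f z) (fderiv ℝ (S (n + 1)).f z)
      ≤ (1 / 100) * (1 / 2) ^ n := by
    intro z n
    rw [dist_comm, dist_eq_norm]
    exact (hspec n).1.2 z
  have hlim : ∀ z, ∃ y, Tendsto (fun n => (S n).f z) atTop (𝓝 y) := fun z =>
    cauchySeq_tendsto_of_complete (cauchySeq_of_le_geometric (1 / 2) (1 / 100) (by norm_num)
      (hdist z))
  have hlim' : ∀ z, ∃ y, Tendsto (fun n => fderiv ℝ (S n).f z) atTop (𝓝 y) := fun z =>
    cauchySeq_tendsto_of_complete (cauchySeq_of_le_geometric (1 / 2) (1 / 100) (by norm_num)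
      (hdist' z))
  choose F hF using hlim
  choose G hG using hlim'
  have hunifG : TendstoUniformly (fun n z => fderiv ℝ (S n).f z) G atTop := by
    rw [Metric.tendstoUniformly_iff]
    intro ε hε
    have h1 : Tendsto (fun n : ℕ => (1 / 100 : ℝ) * (1 / 2) ^ n / (1 - 1 / 2)) atTop (𝓝 0) := by
      have h2 : Tendsto (fun n : ℕ => ((1:ℝ) / 2) ^ n) atTop (𝓝 0) :=
        tendsto_pow_atTop_nhds_zero_of_lt_one (by norm_num) (by norm_num)
      have := (h2.const_mul (1 / 100)).div_const (1 - 1 / 2)
      simpa using this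
    filter_upwards [h1.eventually (gt_mem_nhds hε)] with n hn z
    rw [dist_comm]
    exact lt_of_le_of_lt (dist_le_of_le_geometric_of_tendsto (1 / 2) (1 / 100) (by norm_num)
      (hdist' z) (hG z) n) hn
  have hGcont : Continuous G := by
    apply hunifG.continuous
    apply Frequently.of_forall
    intro n
    exact (S n).st.smooth.continuous_fderiv (by norm_num)
  have hFG : ∀ z, HasFDerivAt F (G z) z := by
    intro z
    exact hasFDerivAt_of_tendstoUniformly hunifG
      (fun n z => ((S n).st.smooth.differentiable (by norm_num) z).hasFDerivAt)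
      hF z
  refine ⟨E, hEc, ?_, ?_, F, ?_, ?_, ?_⟩
  · apply totallyDisconnected_of_cut
    intro n
    exact (hspec n).2.2.2.2.2.mono (iInter_subset _ n)
  · have h1 : ∀ n, volume E ≤ ENNReal.ofReal (eps n) := fun n =>
      (measure_mono (iInter_subset _ n)).trans (hspec n).2.2.2.2.1
    have h2 : Tendsto (fun n => ENNReal.ofReal (eps n)) atTop (𝓝 0) := by
      have h3 : Tendsto eps atTop (𝓝 0) := by
        have h4 : Tendsto (fun n : ℕ => ((1:ℝ) / 2) ^ n) atTop (𝓝 0) :=
          tendsto_pow_atTop_nhds_zero_of_lt_one (by norm_num) (by norm_num)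
        have := h4.const_mul (1 / 100)
        rw [mul_zero] at this
        exact this
      have := ENNReal.tendsto_ofReal h3
      simpa using this
    exact le_antisymm (ge_of_tendsto' h2 h1) (zero_le)
  · rw [contDiff_one_iff_fderiv]
    refine ⟨fun z => (hFG z).differentiableAt, ?_⟩
    have : fderiv ℝ F = G := by
      funext z
      exact (hFG z).fderiv
    rw [this]
    exact hGcont
  · intro z
    have := dist_le_of_le_geometric_of_tendsto (1 / 2) (1 / 100) (by norm_num)
      (hdist z) (hF z) 0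
    rw [dist_comm, Real.dist_eq] at this
    have h0 : (S 0).f z = s0.f z := rfl
    rw [h0] at this
    norm_num at this ⊢
    exact this
  · intro z hz
    simp only [hE, mem_iInter, not_forall] at hz
    obtain ⟨n, hn⟩ := hz
    have hopen : IsOpen (closure (S (n + 1)).N)ᶜ := isClosed_closure.isOpen_compl
    obtain ⟨r, hr, hball⟩ := Metric.isOpen_iff.1 hopen z hn
    refine ⟨Metric.ball z r, Metric.isOpen_ball, convex_ball z r, Metric.mem_ball_self hr,
      ?_, ?_⟩
    · intro w hw hwE
      exact hball hw (mem_iInter.1 hwE n)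
    · have h1 : ConvexOn ℝ (Metric.ball z r) (S (n + 1)).f := by
        apply convexOn_of_disjoint_Bad (S (n + 1)).st.smooth (convex_ball z r)
        rw [Set.disjoint_left]
        intro w hw hwB
        exact hball hw (subset_closure ((S (n + 1)).bad hwB))
      apply h1.congr
      intro w hw
      have hwN : w ∉ (S (n + 1)).N := fun h => hball hw (subset_closure h)
      have h2 : Tendsto (fun k => (S (n + 1 + k)).f w) atTop (𝓝 ((S (n + 1)).f w)) := by
        have : (fun k => (S (n + 1 + k)).f w) = fun _ => (S (n + 1)).f w := by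
          funext k
          exact hstab (n + 1) w hwN k
        rw [this]
        exact tendsto_const_nhds
      have h3 : Tendsto (fun k => (S (n + 1 + k)).f w) atTop (𝓝 (F w)) := by
        have := (hF w).comp (tendsto_add_atTop_nat (n + 1))
        convert this using 2
        simp only [Function.comp]
        rw [add_comm]
      exact tendsto_nhds_unique h2 h3

end Pool.Agent.Lib.MP_034ae1_an
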