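import Pool.Agent.Lib.MP_034ae1_an.Basic

/-!
The basic perturbation step: adding a rapidly oscillating ridge function.
-/

set_option autoImplicit false

open Set MeasureTheory Filter Topology
open scoped ContDiff

namespace Pool.Agent.Lib.MP_034ae1_an

/-- A rapidly oscillating ridge function. -/
noncomputable def osc (Φ : ℝ → ℝ) (ℓ : Pl →L[ℝ] ℝ) (δ θ : ℝ) (z : Pl) : ℝ :=
  δ ^ 2 * Φ (ℓ z / δ + θ)

section osc

variable {Φ : ℝ → ℝ} (hΦ : ContDiff ℝ ∞ Φ) (ℓ : Pl →L[ℝ] ℝ) (δ θ : ℝ)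

include hΦ

theorem contDiff_osc : ContDiff ℝ ∞ (osc Φ ℓ δ θ) := by
  unfold osc
  apply contDiff_const.mul
  apply hΦ.comp
  exact (ℓ.contDiff.div_const δ).add contDiff_const

theorem fderiv_ridge (c : ℝ) (z v : Pl) :
    fderiv ℝ (fun z => c * Φ (ℓ z / δ + θ)) z v = c * (deriv Φ (ℓ z / δ + θ) * (ℓ v / δ)) := by
  have h1 : HasFDerivAt (fun z => ℓ z / δ + θ) (δ⁻¹ • ℓ) z := by
    have := (ℓ.hasFDerivAt (x := z)).mul_const (δ⁻¹) |>.add_const θ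
    simpa [div_eq_mul_inv] using this
  have h2 : HasDerivAt Φ (deriv Φ (ℓ z / δ + θ)) (ℓ z / δ + θ) :=
    (hΦ.differentiable (by norm_num) _).hasDerivAt
  have h3 := (h2.comp_hasFDerivAt z h1).const_mul c
  have h4 : fderiv ℝ (fun z => c * Φ (ℓ z / δ + θ)) z =
      c • (deriv Φ (ℓ z / δ + θ) • (δ⁻¹ • ℓ)) := h3.fderiv
  rw [h4]
  simp [div_eq_mul_inv]
  ring_nf
  simp

theorem fderiv_osc (hδ : δ ≠ 0) (z v : Pl) :
    fderiv ℝ (osc Φ ℓ δ θ) z v = δ * ℓ v * deriv Φ (ℓ z / δ + θ) := by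
  have := fderiv_ridge hΦ ℓ δ θ (δ ^ 2) z v
  unfold osc
  rw [this]
  field_simp

theorem D2_osc (hδ : δ ≠ 0) (z v : Pl) :
    D2 (osc Φ ℓ δ θ) z v = deriv (deriv Φ) (ℓ z / δ + θ) * (ℓ v) ^ 2 := by
  unfold D2
  have h1 : (fun w => fderiv ℝ (osc Φ ℓ δ θ) w v) =
      fun w => (δ * ℓ v) * (deriv Φ) (ℓ w / δ + θ) := by
    funext w
    exact fderiv_osc hΦ ℓ δ θ hδ w v
  have hΦ' : ContDiff ℝ ∞ (deriv Φ) := by
    have : ContDiff ℝ (∞ + 1) Φ := by simpa using hΦ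
    exact (contDiff_succ_iff_deriv.1 this).2.2
  rw [h1, fderiv_ridge hΦ' ℓ δ θ (δ * ℓ v) z v]
  field_simp

end osc

/-- Uniform positivity of `D2 f + M ℓ²` on a compact set. -/
theorem exists_uniform {f : Pl → ℝ} (hf : ContDiff ℝ ∞ f) {K : Set Pl} (hK : IsCompact K)
    (ℓ : Pl →L[ℝ] ℝ)
    (h : ∀ z ∈ K, ∀ v ∈ Metric.sphere (0 : Pl) 1, ℓ v = 0 → 0 < D2 f z v) :
    ∃ M : ℝ, 0 < M ∧ ∃ c : ℝ, 0 < c ∧ ∀ z ∈ K, ∀ v ∈ Metric.sphere (0 : Pl) 1,
      c ≤ D2 f z v + M * (ℓ v) ^ 2 := by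
  have hS : IsCompact (Metric.sphere (0 : Pl) 1) := isCompact_sphere 0 1
  have hKS : IsCompact (K ×ˢ Metric.sphere (0 : Pl) 1) := hK.prod hS
  let U : ℕ → Set (Pl × Pl) := fun n =>
    {p | 1 / ((n : ℝ) + 1) < D2 f p.1 p.2 + ((n : ℝ) + 1) * (ℓ p.2) ^ 2}
  have hcont := continuous_D2 hf
  have hU : ∀ n, IsOpen (U n) := by
    intro n
    apply isOpen_lt continuous_const
    exact hcont.add (continuous_const.mul ((ℓ.continuous.comp continuous_snd).pow 2))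
  have hmono : ∀ m n : ℕ, m ≤ n → U m ⊆ U n := by
    intro m n hmn p hp
    have hmn' : (m : ℝ) ≤ n := by exact_mod_cast hmn
    simp only [U, mem_ofPred_eq] at hp ⊢
    have h1 : 1 / ((n : ℝ) + 1) ≤ 1 / ((m : ℝ) + 1) := by
      apply one_div_le_one_div_of_le <;> first | positivity | linarith
    have h2 : ((m : ℝ) + 1) * (ℓ p.2) ^ 2 ≤ ((n : ℝ) + 1) * (ℓ p.2) ^ 2 := by
      apply mul_le_mul_of_nonneg_right (by linarith) (by positivity)
    linarith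
  have hcov : K ×ˢ Metric.sphere (0 : Pl) 1 ⊆ ⋃ n, U n := by
    rintro ⟨z, v⟩ ⟨hz, hv⟩
    simp only [mem_iUnion, U, mem_ofPred_eq]
    simp only at hz hv
    by_cases h0 : ℓ v = 0
    · have hpos := h z hz v hv h0
      obtain ⟨n, hn⟩ := exists_nat_one_div_lt hpos
      refine ⟨n, ?_⟩
      simp only [h0]
      simpa using hn
    · have hpos : 0 < (ℓ v) ^ 2 := by positivity
      obtain ⟨n, hn⟩ := exists_nat_gt ((1 - D2 f z v) / (ℓ v) ^ 2)
      refine ⟨n, ?_⟩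
      rw [div_lt_iff₀ hpos] at hn
      have h1 : 1 / ((n : ℝ) + 1) ≤ 1 := by
        rw [div_le_one (by positivity)]
        have : (0 : ℝ) ≤ n := Nat.cast_nonneg n
        linarith
      nlinarith
  obtain ⟨n, hn⟩ := hKS.elim_directed_cover U hU hcov
    (by
      intro i j
      exact ⟨max i j, hmono i _ (le_max_left _ _), hmono j _ (le_max_right _ _)⟩)
  refine ⟨(n : ℝ) + 1, by positivity, 1 / ((n : ℝ) + 1), by positivity, ?_⟩
  intro z hz v hv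
  have : (z, v) ∈ U n := hn ⟨hz, hv⟩
  simp only [U, mem_ofPred_eq] at this
  exact this.le

theorem exists_cutoff {B N : Set Pl} (hB : IsCompact B) (hN : IsOpen N) (hBN : B ⊆ N) :
    ∃ χ : Pl → ℝ, ContDiff ℝ ∞ χ ∧ IsCompact (tsupport χ) ∧ tsupport χ ⊆ N ∧
      (∀ z, 0 ≤ χ z) ∧ (∀ z, χ z ≤ 1) ∧ ∃ O, IsOpen O ∧ B ⊆ O ∧ ∀ z ∈ O, χ z = 1 := by
  obtain ⟨V, hVo, hBV, hVN, hVc⟩ := exists_open_between_and_isCompact_closure hB hN hBN
  obtain ⟨W, hWo, hBW, hWV, hWc⟩ := exists_open_between_and_isCompact_closure hB hVo hBV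
  obtain ⟨χ, hχ0, hχ1, hχ⟩ := exists_contMDiffMap_zero_one_of_isClosed (n := ⊤)
    (modelWithCornersSelf ℝ Pl) (s := Vᶜ) (t := closure W) hVo.isClosed_compl isClosed_closure
    (by
      rw [Set.disjoint_left]
      intro x hx hx'
      exact hx (hWV hx'))
  have hsupp : tsupport χ ⊆ closure V := by
    apply closure_mono
    intro x hx
    by_contra hxV
    exact hx (hχ0 hxV)
  refine ⟨χ, ?_, ?_, hsupp.trans hVN, fun z => (hχ z).1, fun z => (hχ z).2, W, hWo, hBW,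
    fun z hz => hχ1 (subset_closure hz)⟩
  · have := χ.contMDiff
    rw [contMDiff_iff_contDiff] at this
    exact this
  · exact hVc.of_isClosed_subset (isClosed_tsupport _) hsupp

end Pool.Agent.Lib.MP_034ae1_an
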