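import Mathlib

/-!
Periodic one-variable profiles.
-/

set_option autoImplicit false

open Set MeasureTheory Filter Topology
open scoped ContDiff

namespace Pool.Agent.Lib.MP_034ae1_an

theorem contDiff_primitive {φ : ℝ → ℝ} (hφ : ContDiff ℝ ∞ φ) :
    ContDiff ℝ ∞ (fun s => ∫ t in (0:ℝ)..s, φ t) ∧
      deriv (fun s => ∫ t in (0:ℝ)..s, φ t) = φ := by
  have h1 : ∀ s, HasDerivAt (fun s => ∫ t in (0:ℝ)..s, φ t) (φ s) s := by
    intro s
    exact hφ.continuous.integral_hasStrictDerivAt 0 s |>.hasDerivAt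
  have h2 : deriv (fun s => ∫ t in (0:ℝ)..s, φ t) = φ := by
    funext s
    exact (h1 s).deriv
  refine ⟨?_, h2⟩
  have : ContDiff ℝ (∞ + 1) (fun s => ∫ t in (0:ℝ)..s, φ t) := by
    rw [contDiff_succ_iff_deriv]
    refine ⟨fun s => (h1 s).differentiableAt, by simp, ?_⟩
    rw [h2]
    exact hφ
  simpa using this

theorem periodic_primitive {φ : ℝ → ℝ} (hφ : Continuous φ) (hp : Function.Periodic φ 1)
    (h0 : ∫ t in (0:ℝ)..1, φ t = 0) :
    Function.Periodic (fun s => ∫ t in (0:ℝ)..s, φ t) 1 := by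
  intro s
  have h1 : ∫ t in s..s + 1, φ t = ∫ t in (0:ℝ)..0 + 1, φ t :=
    hp.intervalIntegral_add_eq s 0
  have h2 : ∫ t in (0:ℝ)..s + 1, φ t = (∫ t in (0:ℝ)..s, φ t) + ∫ t in s..s + 1, φ t :=
    (intervalIntegral.integral_add_adjacent_intervals (hφ.intervalIntegrable _ _)
      (hφ.intervalIntegrable _ _)).symm
  simp only
  rw [h2, h1, zero_add, h0, add_zero]

theorem bounded_of_periodic {φ : ℝ → ℝ} (hφ : Continuous φ) (hp : Function.Periodic φ 1) :
    ∃ A : ℝ, ∀ s, |φ s| ≤ A := by
  have := hp.isBounded_of_continuous one_ne_zero hφ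
  obtain ⟨A, hA⟩ := this.exists_norm_le
  exact ⟨A, fun s => hA _ (mem_range_self s)⟩

theorem exists_double_primitive {φ : ℝ → ℝ} (hφ : ContDiff ℝ ∞ φ) (hp : Function.Periodic φ 1)
    (h0 : ∫ t in (0:ℝ)..1, φ t = 0) :
    ∃ Φ : ℝ → ℝ, ContDiff ℝ ∞ Φ ∧ deriv (deriv Φ) = φ ∧
      ∃ A : ℝ, (∀ s, |Φ s| ≤ A) ∧ ∀ s, |deriv Φ s| ≤ A := by
  obtain ⟨h1, h2⟩ := contDiff_primitive hφ
  have h3 := periodic_primitive hφ.continuous hp h0
  set P : ℝ → ℝ := fun s => ∫ t in (0:ℝ)..s, φ t with hP
  set a : ℝ := ∫ t in (0:ℝ)..1, P t with ha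
  set Q : ℝ → ℝ := fun s => P s - a with hQ
  have hQc : ContDiff ℝ ∞ Q := h1.sub contDiff_const
  have hQp : Function.Periodic Q 1 := by
    intro s
    simp only [hQ]
    rw [h3 s]
  have hQ0 : ∫ t in (0:ℝ)..1, Q t = 0 := by
    simp only [hQ]
    rw [intervalIntegral.integral_sub (h1.continuous.intervalIntegrable _ _)
      (continuous_const.intervalIntegrable _ _)]
    simp [ha]
  obtain ⟨h4, h5⟩ := contDiff_primitive hQc
  have h6 := periodic_primitive hQc.continuous hQp hQ0
  obtain ⟨A1, hA1⟩ := bounded_of_periodic hQc.continuous hQp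
  obtain ⟨A2, hA2⟩ := bounded_of_periodic h4.continuous h6
  refine ⟨_, h4, ?_, max A1 A2, fun s => (hA2 s).trans (le_max_right _ _), fun s => ?_⟩
  · rw [h5]
    funext s
    simp only [hQ]
    rw [deriv_sub_const, h2]
  · rw [h5]
    exact (hA1 s).trans (le_max_left _ _)

/-- A smooth periodic bump around the integers. -/
noncomputable def bump (κ s : ℝ) : ℝ :=
  Real.smoothTransition ((Real.cos (2 * Real.pi * s) - κ) / (1 - κ))

theorem contDiff_bump (κ : ℝ) : ContDiff ℝ ∞ (bump κ) := by
  unfold bump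
  apply Real.smoothTransition.contDiff.comp
  apply ContDiff.div_const
  apply ContDiff.sub _ contDiff_const
  exact Real.contDiff_cos.comp (contDiff_const.mul contDiff_id)

theorem bump_periodic (κ : ℝ) : Function.Periodic (bump κ) 1 := by
  intro s
  unfold bump
  have : 2 * Real.pi * (s + 1) = 2 * Real.pi * s + 2 * Real.pi := by ring
  rw [this, Real.cos_add_two_pi]

theorem bump_nonneg (κ s : ℝ) : 0 ≤ bump κ s := Real.smoothTransition.nonneg _

theorem bump_le_one (κ s : ℝ) : bump κ s ≤ 1 := Real.smoothTransition.le_one _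

theorem bump_int {κ : ℝ} (hκ : κ < 1) (n : ℤ) : bump κ n = 1 := by
  unfold bump
  have : Real.cos (2 * Real.pi * n) = 1 := by
    have := Real.cos_int_mul_two_pi n
    rw [mul_comm] at this
    exact this
  rw [this, div_self (by linarith)]
  exact Real.smoothTransition.one_of_one_le le_rfl

theorem bump_eq_zero {κ s : ℝ} (hκ : κ < 1) (h : Real.cos (2 * Real.pi * s) ≤ κ) :
    bump κ s = 0 := by
  unfold bump
  apply Real.smoothTransition.zero_of_nonpos
  apply div_nonpos_of_nonpos_of_nonneg <;> linarith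

/-- The bad phases. -/
def phase (w : ℝ) : Set ℝ := {s | Real.cos (2 * Real.pi * w) < Real.cos (2 * Real.pi * s)}

theorem phase_subset {w : ℝ} (hw : 0 < w) (hw4 : w < 1 / 4) :
    phase w ∩ Ioc 0 1 ⊆ Icc 0 w ∪ Icc (1 - w) 1 := by
  rintro s ⟨hs, hs0, hs1⟩
  simp only [phase, mem_ofPred_eq] at hs
  have hpi := Real.pi_pos
  by_contra hcon
  simp only [mem_union, mem_Icc, not_or, not_and, not_le] at hcon
  have h1 := hcon.1 hs0.le
  have h2 : s < 1 - w := by
    by_contra h
    have := hcon.2 (not_lt.1 h)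
    linarith
  rcases le_total s (1 / 2) with h | h
  · have : Real.cos (2 * Real.pi * s) ≤ Real.cos (2 * Real.pi * w) := by
      apply Real.cos_le_cos_of_nonneg_of_le_pi (by positivity)
      · nlinarith
      · nlinarith
    linarith
  · have h3 : Real.cos (2 * Real.pi * s) = Real.cos (2 * Real.pi * (1 - s)) := by
      have : 2 * Real.pi * (1 - s) = 2 * Real.pi - 2 * Real.pi * s := by ring
      rw [this, Real.cos_two_pi_sub]
    have : Real.cos (2 * Real.pi * (1 - s)) ≤ Real.cos (2 * Real.pi * w) := by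
      apply Real.cos_le_cos_of_nonneg_of_le_pi (by positivity)
      · nlinarith
      · nlinarith
    linarith

theorem measurableSet_phase (w : ℝ) : MeasurableSet (phase w) := by
  apply measurableSet_lt measurable_const
  exact (Real.continuous_cos.comp (continuous_const.mul continuous_id)).measurable

theorem volume_phase {w : ℝ} (hw : 0 < w) (hw4 : w < 1 / 4) :
    volume (phase w ∩ Ioc 0 1) ≤ ENNReal.ofReal (2 * w) := by
  calc volume (phase w ∩ Ioc 0 1) ≤ volume (Icc 0 w ∪ Icc (1 - w) 1) :=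
        measure_mono (phase_subset hw hw4)
    _ ≤ volume (Icc 0 w) + volume (Icc (1 - w) 1) := measure_union_le _ _
    _ = ENNReal.ofReal (2 * w) := by
      rw [Real.volume_Icc, Real.volume_Icc, ← ENNReal.ofReal_add (by linarith) (by linarith)]
      congr 1
      ring

theorem cos_lt_one_of {w : ℝ} (hw : 0 < w) (hw4 : w < 1 / 4) : Real.cos (2 * Real.pi * w) < 1 := by
  have hpi := Real.pi_pos
  have := Real.cos_lt_cos_of_nonneg_of_le_pi (x := 0) (y := 2 * Real.pi * w) le_rfl
    (by nlinarith) (by positivity)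
  simpa using this

theorem integral_bump_le {w : ℝ} (hw : 0 < w) (hw4 : w < 1 / 4) :
    ∫ s in (0:ℝ)..1, bump (Real.cos (2 * Real.pi * w)) s ≤ 2 * w := by
  set κ := Real.cos (2 * Real.pi * w) with hκ
  have hκ1 : κ < 1 := cos_lt_one_of hw hw4
  rw [intervalIntegral.integral_of_le zero_le_one]
  have h1 : ∫ s in Ioc (0:ℝ) 1, bump κ s ≤ ∫ s in Ioc (0:ℝ) 1, (phase w).indicator 1 s := by
    apply integral_mono_of_nonneg
    · exact Eventually.of_forall (fun s => bump_nonneg κ s)
    · apply Integrable.indicator _ (measurableSet_phase w)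
      simp only [Pi.one_def]
      exact integrable_const _
    · apply Eventually.of_forall
      intro s
      by_cases hs : s ∈ phase w
      · simp only [indicator_of_mem hs, Pi.one_apply]
        exact bump_le_one κ s
      · simp only [indicator_of_notMem hs]
        exact (bump_eq_zero hκ1 (not_lt.1 hs)).le
  refine h1.trans ?_
  rw [integral_indicator (measurableSet_phase w), Measure.restrict_restrict
    (measurableSet_phase w)]
  simp only [Pi.one_apply, integral_const, smul_eq_mul, mul_one, measureReal_restrict_apply_univ]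
  exact ENNReal.toReal_le_of_le_ofReal (by positivity) (volume_phase hw hw4)

theorem integral_bump_pos {κ : ℝ} (hκ : κ < 1) : 0 < ∫ s in (0:ℝ)..1, bump κ s := by
  apply intervalIntegral.integral_pos zero_lt_one (contDiff_bump κ).continuous.continuousOn
  · intro s _
    exact bump_nonneg κ s
  · refine ⟨0, by simp, ?_⟩
    have := bump_int hκ 0
    simp only [Int.cast_zero] at this
    rw [this]
    exact one_pos

/-- Profile with second derivative `≥ M` outside a small set of phases. -/
theorem exists_profile_M {M w : ℝ} (hw : 0 < w) (hw4 : w < 1 / 4) :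
    ∃ Φ : ℝ → ℝ, ContDiff ℝ ∞ Φ ∧ (∃ A : ℝ, (∀ s, |Φ s| ≤ A) ∧ ∀ s, |deriv Φ s| ≤ A) ∧
      ∀ s, deriv (deriv Φ) s < M → s ∈ phase w := by
  set κ := Real.cos (2 * Real.pi * w) with hκ
  have hκ1 : κ < 1 := cos_lt_one_of hw hw4
  have hI := integral_bump_pos hκ1
  set I := ∫ s in (0:ℝ)..1, bump κ s with hIdef
  obtain ⟨Φ, hΦ, hΦ2, hA⟩ := exists_double_primitive (φ := fun s => M - M / I * bump κ s)
    (contDiff_const.sub (contDiff_const.mul (contDiff_bump κ)))
    (by
      intro s
      simp only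
      rw [bump_periodic κ s])
    (by
      have hc : Continuous (fun s => M / I * bump κ s) :=
        continuous_const.mul (contDiff_bump κ).continuous
      rw [intervalIntegral.integral_sub (continuous_const.intervalIntegrable _ _)
        (hc.intervalIntegrable _ _)]
      rw [intervalIntegral.integral_const_mul, ← hIdef]
      simp
      field_simp
      simp)
  refine ⟨Φ, hΦ, hA, ?_⟩
  intro s hs
  rw [hΦ2] at hs
  by_contra hcon
  simp only at hs
  rw [bump_eq_zero hκ1 (not_lt.1 hcon)] at hs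
  simp at hs

/-- Profile with second derivative `≥ -τ` and very large at the integers. -/
theorem exists_profile_W {M τ : ℝ} (hM : 0 < M) (hτ : 0 < τ) :
    ∃ Φ : ℝ → ℝ, ContDiff ℝ ∞ Φ ∧ (∃ A : ℝ, (∀ s, |Φ s| ≤ A) ∧ ∀ s, |deriv Φ s| ≤ A) ∧
      (∀ s, -τ ≤ deriv (deriv Φ) s) ∧ ∀ n : ℤ, M ≤ deriv (deriv Φ) n := by
  set w : ℝ := min (1 / 8) (τ / (2 * (M + τ))) with hwdef
  have hw : 0 < w := by rw [hwdef]; positivity
  have hw4 : w < 1 / 4 := lt_of_le_of_lt (min_le_left _ _) (by norm_num)
  set κ := Real.cos (2 * Real.pi * w) with hκ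
  have hκ1 : κ < 1 := cos_lt_one_of hw hw4
  have hI := integral_bump_pos hκ1
  have hI2 := integral_bump_le hw hw4
  rw [← hκ] at hI2
  set I := ∫ s in (0:ℝ)..1, bump κ s with hIdef
  obtain ⟨Φ, hΦ, hΦ2, hA⟩ := exists_double_primitive (φ := fun s => τ / I * bump κ s - τ)
    ((contDiff_const.mul (contDiff_bump κ)).sub contDiff_const)
    (by
      intro s
      simp only
      rw [bump_periodic κ s])
    (by
      have hc : Continuous (fun s => τ / I * bump κ s) :=
        continuous_const.mul (contDiff_bump κ).continuous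
      rw [intervalIntegral.integral_sub (hc.intervalIntegrable _ _)
        (continuous_const.intervalIntegrable _ _)]
      rw [intervalIntegral.integral_const_mul, ← hIdef]
      simp
      field_simp
      simp)
  refine ⟨Φ, hΦ, hA, ?_, ?_⟩
  · intro s
    rw [hΦ2]
    have := bump_nonneg κ s
    have : 0 ≤ τ / I * bump κ s := by positivity
    simp only
    linarith
  · intro n
    rw [hΦ2]
    simp only
    rw [bump_int hκ1 n, mul_one]
    have h1 : I ≤ τ / (M + τ) := by
      have : w ≤ τ / (2 * (M + τ)) := min_le_right _ _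
      calc I ≤ 2 * w := hI2
        _ ≤ 2 * (τ / (2 * (M + τ))) := by linarith
        _ = τ / (M + τ) := by field_simp
    have h2 : M + τ ≤ τ / I := by
      rw [le_div_iff₀ hI]
      rw [le_div_iff₀ (by positivity)] at h1
      linarith
    linarith

end Pool.Agent.Lib.MP_034ae1_an
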