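import Pool.Agent.Lib.MP_034ae1_an.Step
import Pool.Agent.Lib.MP_034ae1_an.Profile

/-!
The two elementary steps: shrinking the measure of the bad set, and cutting it by walls.
-/

set_option autoImplicit false

open Set MeasureTheory Filter Topology
open scoped ContDiff

namespace Pool.Agent.Lib.MP_034ae1_an

/-- First basis vector. -/
noncomputable def e1 : Pl := EuclideanSpace.single 0 1

/-- Second basis vector. -/
noncomputable def e2 : Pl := EuclideanSpace.single 1 1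

theorem e2_mem : e2 ∈ Metric.sphere (0 : Pl) 1 := by
  simp [e2]

/-- Admissible functions: smooth, bad set compact, positive second derivative along `e2`. -/
structure State (f : Pl → ℝ) : Prop where
  smooth : ContDiff ℝ ∞ f
  compactBad : IsCompact (Bad f)
  pos : ∀ z, 0 < D2 f z e2

/-- `C¹`-closeness. -/
def Near (ε : ℝ) (f g : Pl → ℝ) : Prop :=
  (∀ z, |g z - f z| ≤ ε) ∧ ∀ z, ‖fderiv ℝ g z - fderiv ℝ f z‖ ≤ ε

theorem phase_shift (w a : ℝ) :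
    volume (phase w ∩ Ioc a (a + 1)) = volume (phase w ∩ Ioc 0 1) := by
  have h1 := isAddFundamentalDomain_Ioc (T := 1) one_pos a volume
  have h2 := isAddFundamentalDomain_Ioc (T := 1) one_pos 0 volume
  rw [zero_add] at h2
  apply h1.measure_set_eq h2 (measurableSet_phase w)
  rintro ⟨g, hg⟩
  obtain ⟨n, rfl⟩ := AddSubgroup.mem_zmultiples_iff.1 hg
  ext s
  simp only [phase, mem_preimage, mem_ofPred_eq, AddSubgroup.mk_vadd, vadd_eq_add]
  have : 2 * Real.pi * (n • (1:ℝ) + s) = 2 * Real.pi * s + n * (2 * Real.pi) := by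
    simp
    ring
  rw [this, Real.cos_add_int_mul_two_pi]

theorem exists_shift (K : Set Pl) (ℓ : Pl →L[ℝ] ℝ) (δ : ℝ) {w : ℝ}
    (hw : 0 < w) (hw4 : w < 1 / 4) :
    ∃ θ : ℝ, volume (K ∩ {z | ℓ z / δ + θ ∈ phase w}) ≤ ENNReal.ofReal (2 * w) * volume K := by
  set S : Set (Pl × ℝ) := {p | ℓ p.1 / δ + p.2 ∈ phase w} with hS
  have hSm : MeasurableSet S := by
    apply (measurableSet_phase w).preimage
    exact (((ℓ.continuous.comp continuous_fst).div_const δ).add continuous_snd).measurable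
  set ν : Measure ℝ := volume.restrict (Ioc (0:ℝ) 1) with hν
  have : IsProbabilityMeasure ν := ⟨by rw [hν]; simp⟩
  have h1 : ∀ z : Pl, ν (Prod.mk z ⁻¹' S) ≤ ENNReal.ofReal (2 * w) := by
    intro z
    have hm : MeasurableSet (Prod.mk z ⁻¹' S) := measurable_prodMk_left hSm
    rw [hν, Measure.restrict_apply hm]
    have h2 : Prod.mk z ⁻¹' S ∩ Ioc (0:ℝ) 1 =
        (fun t => ℓ z / δ + t) ⁻¹' (phase w ∩ Ioc (ℓ z / δ) (ℓ z / δ + 1)) := by
      ext t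
      simp only [hS, mem_inter_iff, mem_preimage, mem_ofPred_eq, mem_Ioc]
      constructor
      · rintro ⟨h1, h2, h3⟩
        exact ⟨h1, by linarith, by linarith⟩
      · rintro ⟨h1, h2, h3⟩
        exact ⟨h1, by linarith, by linarith⟩
    rw [h2, measure_preimage_add, phase_shift]
    exact volume_phase hw hw4
  have h2 : ((volume.restrict K).prod ν) S ≤ ENNReal.ofReal (2 * w) * volume K := by
    rw [Measure.prod_apply hSm]
    calc ∫⁻ z, ν (Prod.mk z ⁻¹' S) ∂(volume.restrict K)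
        ≤ ∫⁻ _z, ENNReal.ofReal (2 * w) ∂(volume.restrict K) := lintegral_mono h1
      _ = ENNReal.ofReal (2 * w) * volume K := by simp
  rw [Measure.prod_apply_symm hSm] at h2
  obtain ⟨θ, hθ⟩ := exists_le_lintegral (μ := ν)
    (f := fun θ => (volume.restrict K) ((fun z => (z, θ)) ⁻¹' S))
    (measurable_measure_prodMk_right hSm).aemeasurable
  refine ⟨θ, ?_⟩
  have h3 := hθ.trans h2
  rw [Measure.restrict_apply (measurable_prodMk_right hSm)] at h3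
  rw [inter_comm]
  exact h3

theorem proj0_apply (v : Pl) : (EuclideanSpace.proj (0 : Fin 2) : Pl →L[ℝ] ℝ) v = v 0 := rfl

theorem eq_comb (v : Pl) : v = v 0 • e1 + v 1 • e2 := by
  ext i
  fin_cases i <;> simp [e1, e2]

theorem State.proj0 {f : Pl → ℝ} (hf : State f) :
    ∀ z ∈ Bad f, ∀ v ∈ Metric.sphere (0 : Pl) 1,
      (EuclideanSpace.proj (0 : Fin 2) : Pl →L[ℝ] ℝ) v = 0 → 0 < D2 f z v := by
  intro z _ v hv h0
  rw [proj0_apply] at h0
  have h1 : v = v 1 • e2 := by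
    conv_lhs => rw [eq_comb v, h0]
    simp
  have h2 : v 1 ≠ 0 := by
    intro h
    rw [h] at h1
    simp at h1
    subst h1
    simp at hv
  rw [h1, D2_smul hf.smooth]
  have := hf.pos z
  positivity

theorem stepM {f : Pl → ℝ} (hf : State f) {N : Set Pl} (hN : IsOpen N) (hBN : Bad f ⊆ N)
    {ε : ℝ} (hε : 0 < ε) :
    ∃ f' : Pl → ℝ, State f' ∧ Near ε f f' ∧ (∀ z, z ∉ N → f' z = f z) ∧ Bad f' ⊆ N ∧
      volume (Bad f') ≤ ENNReal.ofReal ε := by
  obtain ⟨K, hK, hKN, M0, hM0, c2, hc2, H⟩ := layering hf.smooth hf.compactBad hN hBN e2 e2_mem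
    hf.pos (EuclideanSpace.proj (0 : Fin 2)) hf.proj0
  -- choose `w`
  set V : ℝ := (volume K).toReal with hV
  have hVfin : volume K = ENNReal.ofReal V := (ENNReal.ofReal_toReal hK.measure_ne_top).symm
  have hV0 : 0 ≤ V := ENNReal.toReal_nonneg
  set w : ℝ := min (1 / 8) (ε / (2 * (V + 1))) with hwdef
  have hw : 0 < w := by rw [hwdef]; positivity
  have hw4 : w < 1 / 4 := lt_of_le_of_lt (min_le_left _ _) (by norm_num)
  obtain ⟨Φ, hΦ, ⟨A, hA0, hA1⟩, hΦM⟩ := exists_profile_M (M := M0) hw hw4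
  have he : (EuclideanSpace.proj (0 : Fin 2) : Pl →L[ℝ] ℝ) e2 = 0 := by
    simp [e2]
  obtain ⟨δ0, hδ0, H1⟩ := H Φ hΦ A hA0 hA1 (by
    intro s
    rw [he]
    simp
    exact hc2.le) ε hε
  obtain ⟨θ, hθ⟩ := exists_shift K (EuclideanSpace.proj (0 : Fin 2) : Pl →L[ℝ] ℝ) δ0 hw hw4
  obtain ⟨f', h1, h2, h3, h4, h5, h6, h7, h8⟩ := H1 δ0 hδ0 le_rfl θ
  refine ⟨f', ⟨h1, h2, h3⟩, ⟨h4, h5⟩, h6, h7.trans hKN, ?_⟩
  calc volume (Bad f') ≤ volume (K ∩ {z | (EuclideanSpace.proj (0 : Fin 2) : Pl →L[ℝ] ℝ) z / δ0 + θ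
        ∈ phase w}) := measure_mono (fun z hz => ⟨h7 hz, hΦM _ (h8 z hz)⟩)
    _ ≤ ENNReal.ofReal (2 * w) * volume K := hθ
    _ = ENNReal.ofReal (2 * w * V) := by
      rw [hVfin, ← ENNReal.ofReal_mul (by positivity)]
    _ ≤ ENNReal.ofReal ε := by
      apply ENNReal.ofReal_le_ofReal
      have h9 : w ≤ ε / (2 * (V + 1)) := min_le_right _ _
      rw [le_div_iff₀ (by positivity)] at h9
      nlinarith

theorem stepW {f : Pl → ℝ} (hf : State f) {N : Set Pl} (hN : IsOpen N) (hBN : Bad f ⊆ N)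
    (ℓ : Pl →L[ℝ] ℝ)
    (hℓ : ∀ z ∈ Bad f, ∀ v ∈ Metric.sphere (0 : Pl) 1, ℓ v = 0 → 0 < D2 f z v)
    {ε : ℝ} (hε : 0 < ε) :
    ∃ f' : Pl → ℝ, State f' ∧ Near ε f f' ∧ (∀ z, z ∉ N → f' z = f z) ∧ Bad f' ⊆ N ∧
      ∃ δ : ℝ, 0 < δ ∧ δ ≤ ε ∧ ∀ z ∈ Bad f', ∀ n : ℤ, ℓ z / δ ≠ n := by
  obtain ⟨K, hK, hKN, M0, hM0, c2, hc2, H⟩ := layering hf.smooth hf.compactBad hN hBN e2 e2_mem
    hf.pos ℓ hℓ
  set τ : ℝ := c2 / ((ℓ e2) ^ 2 + 1) with hτdef
  have hτ : 0 < τ := by rw [hτdef]; positivity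
  obtain ⟨Φ, hΦ, ⟨A, hA0, hA1⟩, hΦτ, hΦM⟩ := exists_profile_W hM0 hτ
  obtain ⟨δ0, hδ0, H1⟩ := H Φ hΦ A hA0 hA1 (by
    intro s
    have h1 := hΦτ s
    have h2 : τ * (ℓ e2) ^ 2 ≤ c2 := by
      rw [hτdef, div_mul_eq_mul_div, div_le_iff₀ (by positivity)]
      nlinarith
    have h3 : 0 ≤ (ℓ e2) ^ 2 := by positivity
    nlinarith) ε hε
  obtain ⟨f', h1, h2, h3, h4, h5, h6, h7, h8⟩ := H1 (min δ0 ε) (by positivity)
    (min_le_left _ _) 0
  refine ⟨f', ⟨h1, h2, h3⟩, ⟨h4, h5⟩, h6, h7.trans hKN, min δ0 ε, by positivity,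
    min_le_right _ _, ?_⟩
  intro z hz n hn
  have h9 := h8 z hz
  rw [add_zero, hn] at h9
  exact absurd (hΦM n) (not_le.2 h9)

end Pool.Agent.Lib.MP_034ae1_an
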