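import Pool.Agent.Lib.MP_034ae1_an.Iterate

/-!
The starting function and the final statement about the plane.
-/

set_option autoImplicit false

open Set MeasureTheory Filter Topology
open scoped ContDiff

namespace Pool.Agent.Lib.MP_034ae1_an

theorem contDiff_quad (a : ℝ) : ContDiff ℝ ∞ (fun s : ℝ => a * s ^ 2) :=
  contDiff_const.mul (contDiff_id.pow 2)

theorem deriv_deriv_quad (a s : ℝ) : deriv (deriv (fun s : ℝ => a * s ^ 2)) s = 2 * a := by
  have h1 : deriv (fun s : ℝ => a * s ^ 2) = fun s => 2 * a * s := by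
    funext t
    have : HasDerivAt (fun s : ℝ => a * s ^ 2) (2 * a * t) t := by
      have h := (hasDerivAt_pow 2 t).const_mul a
      have e : a * (((2 : ℕ) : ℝ) * t ^ (2 - 1)) = 2 * a * t := by
        norm_num
        ring
      rwa [e] at h
    exact this.deriv
  rw [h1]
  have : HasDerivAt (fun s : ℝ => 2 * a * s) (2 * a) s := by
    have := (hasDerivAt_id s).const_mul (2 * a)
    simpa using this
  exact this.deriv

/-- The quadratic part. -/
noncomputable def quad (A : ℝ) (z : Pl) : ℝ :=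
  osc (fun s => 1 * s ^ 2) (EuclideanSpace.proj (0 : Fin 2)) 1 0 z +
    osc (fun s => A * s ^ 2) (EuclideanSpace.proj (1 : Fin 2)) 1 0 z

theorem quad_eq (A : ℝ) (z : Pl) : quad A z = z 0 ^ 2 + A * z 1 ^ 2 := by
  simp [quad, osc]

theorem contDiff_quadz (A : ℝ) : ContDiff ℝ ∞ (quad A) :=
  (contDiff_osc (contDiff_quad 1) _ _ _).add (contDiff_osc (contDiff_quad A) _ _ _)

theorem D2_quad (A : ℝ) (z v : Pl) : D2 (quad A) z v = 2 * v 0 ^ 2 + 2 * A * v 1 ^ 2 := by
  have : quad A = fun z => osc (fun s => 1 * s ^ 2) (EuclideanSpace.proj (0 : Fin 2)) 1 0 z +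
    osc (fun s => A * s ^ 2) (EuclideanSpace.proj (1 : Fin 2)) 1 0 z := rfl
  rw [this, D2_add (contDiff_osc (contDiff_quad 1) _ _ _) (contDiff_osc (contDiff_quad A) _ _ _),
    D2_osc (contDiff_quad 1) _ _ _ one_ne_zero, D2_osc (contDiff_quad A) _ _ _ one_ne_zero,
    deriv_deriv_quad, deriv_deriv_quad]
  simp

theorem exists_start : ∃ s0 : Stage, s0.f 0 = 0 ∧ s0.f ((1 / 2 : ℝ) • e1) = -1 / 4 ∧
    s0.f (-((1 / 2 : ℝ) • e1)) = -1 / 4 := by
  let b : ContDiffBump (0 : Pl) := ⟨1, 2, one_pos, one_lt_two⟩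
  have hb : ContDiff ℝ ∞ (fun z => b z) := b.contDiff
  set ψ : Pl → ℝ := fun z => b z * osc (fun s => (-2) * s ^ 2) (EuclideanSpace.proj (0 : Fin 2)) 1 0 z
    with hψ
  have hψc : ContDiff ℝ ∞ ψ := hb.mul (contDiff_osc (contDiff_quad (-2)) _ _ _)
  have hK : IsCompact (tsupport (fun z => b z)) := b.hasCompactSupport
  obtain ⟨C, hC, hbound⟩ := exists_bound_D2 hψc hK
  set A : ℝ := C with hA
  set f : Pl → ℝ := fun z => quad A z + ψ z with hf
  have hfc : ContDiff ℝ ∞ f := (contDiff_quadz A).add hψc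
  have hoff : ∀ z, z ∉ tsupport (fun z => b z) → f =ᶠ[𝓝 z] quad A := by
    intro z hz
    have : (fun z => b z) =ᶠ[𝓝 z] 0 := notMem_tsupport_iff_eventuallyEq.1 hz
    refine this.mono (fun w hw => ?_)
    have hw' : b w = 0 := hw
    simp [hf, hψ, hw']
  have hpos : ∀ z, 0 < D2 f z e2 := by
    intro z
    by_cases hz : z ∈ tsupport (fun z => b z)
    · rw [hf, D2_add (contDiff_quadz A) hψc, D2_quad]
      have h1 := hbound z hz e2 e2_mem
      have h2 := (abs_le.1 h1).1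
      have h3 : e2 0 = 0 := by simp [e2]
      have h4 : e2 1 = 1 := by simp [e2]
      rw [h3, h4]
      nlinarith
    · rw [D2_congr (hoff z hz), D2_quad]
      have h3 : e2 0 = 0 := by simp [e2]
      have h4 : e2 1 = 1 := by simp [e2]
      rw [h3, h4]
      nlinarith
  have hBad : Bad f ⊆ tsupport (fun z => b z) := by
    rintro z ⟨v, hv, hle⟩
    by_contra hz
    rw [D2_congr (hoff z hz), D2_quad] at hle
    have h1 : v 0 = 0 := by
      have h3 : v 0 ^ 2 ≤ 0 := by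
        have : 0 ≤ 2 * A * v 1 ^ 2 := by positivity
        linarith
      exact pow_eq_zero_iff (two_ne_zero) |>.1 (le_antisymm h3 (by positivity))
    have h2 : v 1 = 0 := by
      have h3 : v 1 ^ 2 ≤ 0 := by
        rw [h1] at hle
        have h4 : 0 ≤ v 1 ^ 2 := by positivity
        by_contra hcon
        have := mul_pos (by positivity : 0 < 2 * A) (not_le.1 hcon)
        linarith
      exact pow_eq_zero_iff (two_ne_zero) |>.1 (le_antisymm h3 (by positivity))
    have h5 : v = 0 := by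
      rw [eq_comb v, h1, h2]
      simp
    subst h5
    simp at hv
  have hbone : ∀ z : Pl, ‖z‖ ≤ 1 → b z = 1 := by
    intro z hz
    apply b.one_of_mem_closedBall
    simpa using hz
  have hval : ∀ z : Pl, ‖z‖ ≤ 1 → f z = -z 0 ^ 2 + A * z 1 ^ 2 := by
    intro z hz
    have h1 := hbone z hz
    simp only [hf, hψ, quad_eq, h1, osc]
    simp
    ring
  have hn : ‖(1 / 2 : ℝ) • e1‖ ≤ 1 := by
    simp [norm_smul, e1]
    norm_num
  refine ⟨⟨f, univ, ⟨hfc, hK.of_isClosed_subset (isClosed_Bad hfc) hBad, hpos⟩, isOpen_univ,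
    subset_univ _⟩, ?_, ?_, ?_⟩
  · simp only
    rw [hval 0 (by simp)]
    simp
  · simp only
    rw [hval _ hn]
    simp [e1]
    norm_num
  · simp only
    rw [hval _ (by rw [norm_neg]; exact hn)]
    simp [e1]
    norm_num

theorem plane_example :
    ∃ E : Set Pl, IsCompact E ∧ IsTotallyDisconnected E ∧ volume E = 0 ∧
      ∃ F : Pl → ℝ, ContDiff ℝ 1 F ∧
        (∀ z, z ∉ E → ∃ V : Set Pl, IsOpen V ∧ Convex ℝ V ∧ z ∈ V ∧ V ⊆ Eᶜ ∧ ConvexOn ℝ V F) ∧
        ¬ ConvexOn ℝ univ F := by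
  obtain ⟨s0, h0, h1, h2⟩ := exists_start
  obtain ⟨E, hE, hTD, hvol, F, hF, hclose, hloc⟩ := limit_exists s0
  refine ⟨E, hE, hTD, hvol, F, hF, hloc, ?_⟩
  intro hconv
  have h3 := hconv.2 (mem_univ ((1 / 2 : ℝ) • e1)) (mem_univ (-((1 / 2 : ℝ) • e1)))
    (by norm_num : (0:ℝ) ≤ 1 / 2) (by norm_num : (0:ℝ) ≤ 1 / 2) (by norm_num)
  have h4 : (1 / 2 : ℝ) • ((1 / 2 : ℝ) • e1) + (1 / 2 : ℝ) • (-((1 / 2 : ℝ) • e1)) = 0 := by
    module
  rw [h4] at h3
  simp only [smul_eq_mul] at h3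
  have h5 := (abs_le.1 (hclose 0)).1
  have h6 := (abs_le.1 (hclose ((1 / 2 : ℝ) • e1))).2
  have h7 := (abs_le.1 (hclose (-((1 / 2 : ℝ) • e1)))).2
  rw [h0] at h5
  rw [h1] at h6
  rw [h2] at h7
  linarith

end Pool.Agent.Lib.MP_034ae1_an
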