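import Pool.Agent.Lib.MP_034ae1_an.Layer

/-!
The general layering lemma.
-/

set_option autoImplicit false

open Set MeasureTheory Filter Topology
open scoped ContDiff

namespace Pool.Agent.Lib.MP_034ae1_an

theorem exists_bound_D2 {f : Pl → ℝ} (hf : ContDiff ℝ ∞ f) {K : Set Pl} (hK : IsCompact K) :
    ∃ C : ℝ, 0 < C ∧ ∀ z ∈ K, ∀ v ∈ Metric.sphere (0 : Pl) 1, |D2 f z v| ≤ C := by
  have hS : IsCompact (Metric.sphere (0 : Pl) 1) := isCompact_sphere 0 1
  obtain ⟨C, hC⟩ := (hK.prod hS).exists_bound_of_continuousOn (continuous_D2 hf).continuousOn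
  refine ⟨max C 1, lt_max_of_lt_right one_pos, fun z hz v hv => ?_⟩
  exact (hC (z, v) ⟨hz, hv⟩).trans (le_max_left _ _)

theorem exists_bound_D1 {f : Pl → ℝ} (hf : ContDiff ℝ ∞ f) {K : Set Pl} (hK : IsCompact K) :
    ∃ C : ℝ, 0 < C ∧ ∀ z ∈ K, ‖fderiv ℝ f z‖ ≤ C := by
  obtain ⟨C, hC⟩ := hK.exists_bound_of_continuousOn
    (hf.continuous_fderiv (by norm_num)).continuousOn
  exact ⟨max C 1, lt_max_of_lt_right one_pos, fun z hz => (hC z hz).trans (le_max_left _ _)⟩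

/-- Positivity of the second derivative in a fixed direction is uniform on compact sets. -/
theorem exists_lower {f : Pl → ℝ} (hf : ContDiff ℝ ∞ f) {K : Set Pl} (hK : IsCompact K)
    (e : Pl) (h : ∀ z, 0 < D2 f z e) : ∃ c : ℝ, 0 < c ∧ ∀ z ∈ K, c ≤ D2 f z e := by
  have hc : Continuous (fun z => D2 f z e) :=
    (continuous_D2 hf).comp (continuous_id.prodMk continuous_const)
  obtain rfl | hne := K.eq_empty_or_nonempty
  · exact ⟨1, one_pos, by simp⟩
  · obtain ⟨z0, hz0, hmin⟩ := hK.exists_isMinOn hne hc.continuousOn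
    exact ⟨D2 f z0 e, h z0, fun z hz => hmin hz⟩

theorem layering {f : Pl → ℝ} (hf : ContDiff ℝ ∞ f) (hB : IsCompact (Bad f)) {N : Set Pl}
    (hN : IsOpen N) (hBN : Bad f ⊆ N) (e : Pl) (he : e ∈ Metric.sphere (0 : Pl) 1)
    (hfe : ∀ z, 0 < D2 f z e) (ℓ : Pl →L[ℝ] ℝ)
    (hℓ : ∀ z ∈ Bad f, ∀ v ∈ Metric.sphere (0 : Pl) 1, ℓ v = 0 → 0 < D2 f z v) :
    ∃ K : Set Pl, IsCompact K ∧ K ⊆ N ∧ ∃ M0 : ℝ, 0 < M0 ∧ ∃ c2 : ℝ, 0 < c2 ∧
      ∀ Φ : ℝ → ℝ, ContDiff ℝ ∞ Φ → ∀ A : ℝ, (∀ s, |Φ s| ≤ A) → (∀ s, |deriv Φ s| ≤ A) →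
      (∀ s, -c2 ≤ deriv (deriv Φ) s * (ℓ e) ^ 2) → ∀ ε : ℝ, 0 < ε →
      ∃ δ0 : ℝ, 0 < δ0 ∧ ∀ δ : ℝ, 0 < δ → δ ≤ δ0 → ∀ θ : ℝ,
      ∃ f' : Pl → ℝ, ContDiff ℝ ∞ f' ∧ IsCompact (Bad f') ∧ (∀ z, 0 < D2 f' z e) ∧
        (∀ z, |f' z - f z| ≤ ε) ∧ (∀ z, ‖fderiv ℝ f' z - fderiv ℝ f z‖ ≤ ε) ∧
        (∀ z, z ∉ N → f' z = f z) ∧ Bad f' ⊆ K ∧
        ∀ z ∈ Bad f', deriv (deriv Φ) (ℓ z / δ + θ) < M0 := by
  obtain ⟨χ, hχ, hK, hKN, hχ0, hχ1, O, hO, hBO, hχO⟩ := exists_cutoff hB hN hBN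
  set K := tsupport χ with hKdef
  refine ⟨K, hK, hKN, ?_⟩
  -- the constants
  have hposK : ∀ z ∈ K, ∀ v ∈ Metric.sphere (0 : Pl) 1, ℓ v = 0 → 0 < D2 f z v := by
    intro z _ v hv hlv
    by_cases hz : z ∈ Bad f
    · exact hℓ z hz v hv hlv
    · apply D2_pos_of_not_Bad hf hz
      intro hv0
      subst hv0
      simp at hv
  obtain ⟨M0, hM0, c0, hc0, hunif⟩ := exists_uniform hf hK ℓ hposK
  have hK1 : IsCompact (K \ O) := hK.diff hO
  obtain ⟨M1, hM1, c1, hc1, hunif1⟩ := exists_uniform hf hK1 (0 : Pl →L[ℝ] ℝ) (by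
    intro z hz v hv _
    apply D2_pos_of_not_Bad hf (fun hzB => hz.2 (hBO hzB))
    intro hv0
    subst hv0
    simp at hv)
  obtain ⟨c3, hc3, hlow⟩ := exists_lower hf hK e hfe
  refine ⟨M0, hM0, c3 / 2, by positivity, ?_⟩
  intro Φ hΦ A hA0 hA1 hA2 ε hε
  obtain ⟨C2, hC2, hb2⟩ := exists_bound_D2 hχ hK
  obtain ⟨C1, hC1, hb1⟩ := exists_bound_D1 hχ hK
  have hA : 0 ≤ A := (abs_nonneg _).trans (hA0 0)
  set L := ‖ℓ‖ with hL
  have hLnn : 0 ≤ L := norm_nonneg _
  set C : ℝ := C2 * A + 2 * (C1 * (L * A)) + C1 * A + L * A + A + 1 with hCdef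
  have hC : 0 < C := by positivity
  -- choice of the scale
  set m : ℝ := min (min (c0 / 2) (c1 / 2)) (min (c3 / 4) ε) with hm
  have hmpos : 0 < m := by
    rw [hm]
    positivity
  refine ⟨min 1 (m / C), by positivity, ?_⟩
  intro δ hδ hδ0 θ
  have hδ1 : δ ≤ 1 := hδ0.trans (min_le_left _ _)
  have hδm : C * δ ≤ m := by
    have := hδ0.trans (min_le_right _ _)
    rw [le_div_iff₀ hC] at this
    linarith
  set u := osc Φ ℓ δ θ with hu
  have hucd : ContDiff ℝ ∞ u := contDiff_osc hΦ ℓ δ θ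
  set g : Pl → ℝ := fun z => χ z * u z with hg
  have hgcd : ContDiff ℝ ∞ g := hχ.mul hucd
  have hf'cd : ContDiff ℝ ∞ (fun z => f z + g z) := hf.add hgcd
  have hδ2 : δ ^ 2 ≤ δ := by nlinarith
  -- the unperturbed region
  have hoff : ∀ z, z ∉ K → (fun z => f z + g z) =ᶠ[𝓝 z] f := by
    intro z hz
    have : χ =ᶠ[𝓝 z] 0 := notMem_tsupport_iff_eventuallyEq.1 hz
    exact this.mono (fun w hw => by simp [hg, hw])
  have hu0 : ∀ z, |u z| ≤ δ * A := by
    intro z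
    rw [hu]
    unfold osc
    rw [abs_mul, abs_of_nonneg (by positivity : (0:ℝ) ≤ δ ^ 2)]
    exact mul_le_mul hδ2 (hA0 _) (abs_nonneg _) hδ.le
  have hu1 : ∀ z v, |fderiv ℝ u z v| ≤ δ * (L * ‖v‖) * A := by
    intro z v
    rw [hu, fderiv_osc hΦ ℓ δ θ hδ.ne', abs_mul, abs_mul, abs_of_pos hδ]
    have h1 : |ℓ v| ≤ L * ‖v‖ := by
      have := ℓ.le_opNorm v
      rwa [Real.norm_eq_abs] at this
    have h2 := hA1 (ℓ z / δ + θ)
    gcongr
  -- main estimate on second derivatives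
  have hmain : ∀ z ∈ K, ∀ v ∈ Metric.sphere (0 : Pl) 1,
      D2 f z v + χ z * (deriv (deriv Φ) (ℓ z / δ + θ) * (ℓ v) ^ 2) - C * δ
        ≤ D2 (fun z => f z + g z) z v := by
    intro z hz v hv
    have hvn : ‖v‖ = 1 := by simpa using hv
    rw [D2_add hf hgcd, hg, D2_mul hχ hucd, D2_osc hΦ ℓ δ θ hδ.ne']
    have h1 : |D2 χ z v * u z| ≤ C2 * (δ * A) := by
      rw [abs_mul]
      exact mul_le_mul (hb2 z hz v hv) (hu0 z) (abs_nonneg _) hC2.le
    have h2 : |fderiv ℝ χ z v * fderiv ℝ u z v| ≤ C1 * (δ * (L * 1) * A) := by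
      rw [abs_mul]
      have h3 : |fderiv ℝ χ z v| ≤ C1 := by
        have := (fderiv ℝ χ z).le_opNorm v
        rw [Real.norm_eq_abs, hvn, mul_one] at this
        exact this.trans (hb1 z hz)
      have h4 := hu1 z v
      rw [hvn] at h4
      exact mul_le_mul h3 h4 (abs_nonneg _) hC1.le
    have h1' := (abs_le.1 h1).1
    have h2' := (abs_le.1 h2).1
    have h5 : 0 ≤ (C1 * A + L * A + A + 1) * δ := by positivity
    rw [hCdef]
    nlinarith
  have hnotbad : ∀ z, z ∉ K → z ∉ Bad (fun z => f z + g z) := by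
    intro z hz hbad
    obtain ⟨v, hv, hle⟩ := hbad
    rw [D2_congr (hoff z hz)] at hle
    exact hz (subset_tsupport _ (by
      have : z ∈ Bad f := ⟨v, hv, hle⟩
      simp [hχO z (hBO this)]))
  have hBadK : Bad (fun z => f z + g z) ⊆ K := by
    intro z hz
    by_contra hzK
    exact hnotbad z hzK hz
  refine ⟨fun z => f z + g z, hf'cd, hK.of_isClosed_subset (isClosed_Bad hf'cd) hBadK,
    ?_, ?_, ?_, ?_, hBadK, ?_⟩
  · -- positivity in direction `e`
    intro z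
    by_cases hz : z ∈ K
    · have h1 := hmain z hz e he
      have h2 := hlow z hz
      have h3 := hA2 (ℓ z / δ + θ)
      have h4 : -(c3 / 2) ≤ χ z * (deriv (deriv Φ) (ℓ z / δ + θ) * (ℓ e) ^ 2) := by
        have h5 := hχ0 z
        have h6 := hχ1 z
        by_cases h7 : 0 ≤ deriv (deriv Φ) (ℓ z / δ + θ) * (ℓ e) ^ 2
        · have := mul_nonneg h5 h7
          linarith
        · nlinarith
      have h8 : m ≤ c3 / 4 := (min_le_right _ _).trans (min_le_left _ _)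
      linarith
    · rw [D2_congr (hoff z hz)]
      exact hfe z
  · -- uniform closeness
    intro z
    have h1 : |χ z * u z| ≤ 1 * (δ * A) := by
      rw [abs_mul]
      apply mul_le_mul _ (hu0 z) (abs_nonneg _) zero_le_one
      rw [abs_of_nonneg (hχ0 z)]
      exact hχ1 z
    have h2 : m ≤ ε := (min_le_right _ _).trans (min_le_right _ _)
    have h3 : δ * A ≤ C * δ := by
      rw [hCdef]
      have : 0 ≤ (C2 * A + 2 * (C1 * (L * A)) + C1 * A + L * A + 1) * δ := by positivity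
      nlinarith
    simp only [hg, add_sub_cancel_left]
    linarith
  · -- closeness of the first derivatives
    intro z
    by_cases hz : z ∈ K
    · have hd : fderiv ℝ (fun z => f z + g z) z - fderiv ℝ f z = fderiv ℝ g z := by
        rw [fderiv_fun_add (hf.differentiable (by norm_num) z)
          (hgcd.differentiable (by norm_num) z)]
        abel
      rw [hd]
      apply ContinuousLinearMap.opNorm_le_bound _ hε.le
      intro v
      rw [hg, fderiv_fun_mul (hχ.differentiable (by norm_num) z)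
        (hucd.differentiable (by norm_num) z)]
      simp only [ContinuousLinearMap.add_apply, ContinuousLinearMap.smul_apply, smul_eq_mul,
        Real.norm_eq_abs]
      have h1 : |χ z * fderiv ℝ u z v| ≤ 1 * (δ * (L * ‖v‖) * A) := by
        rw [abs_mul]
        apply mul_le_mul _ (hu1 z v) (abs_nonneg _) zero_le_one
        rw [abs_of_nonneg (hχ0 z)]
        exact hχ1 z
      have h2 : |u z * fderiv ℝ χ z v| ≤ (δ * A) * (C1 * ‖v‖) := by
        rw [abs_mul]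
        apply mul_le_mul (hu0 z) _ (abs_nonneg _) (by positivity)
        have := (fderiv ℝ χ z).le_opNorm v
        rw [Real.norm_eq_abs] at this
        exact this.trans (mul_le_mul_of_nonneg_right (hb1 z hz) (norm_nonneg _))
      have h3 : m ≤ ε := (min_le_right _ _).trans (min_le_right _ _)
      have h4 : (L * A + C1 * A) * δ ≤ C * δ := by
        rw [hCdef]
        have : 0 ≤ (C2 * A + 2 * (C1 * (L * A)) + A + 1) * δ := by positivity
        nlinarith
      have h5 : (L * A + C1 * A) * δ * ‖v‖ ≤ ε * ‖v‖ :=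
        mul_le_mul_of_nonneg_right (by linarith) (norm_nonneg _)
      calc |χ z * fderiv ℝ u z v + u z * fderiv ℝ χ z v|
          ≤ |χ z * fderiv ℝ u z v| + |u z * fderiv ℝ χ z v| := abs_add_le _ _
        _ ≤ 1 * (δ * (L * ‖v‖) * A) + (δ * A) * (C1 * ‖v‖) := add_le_add h1 h2
        _ = (L * A + C1 * A) * δ * ‖v‖ := by ring
        _ ≤ ε * ‖v‖ := h5
    · rw [(hoff z hz).fderiv_eq, sub_self, norm_zero]
      exact hε.le
  · intro z hz
    have : z ∉ K := fun h => hz (hKN h)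
    have : χ z = 0 := image_eq_zero_of_notMem_tsupport this
    simp [hg, this]
  · intro z hzb
    have hzK := hBadK hzb
    obtain ⟨v, hv, hle⟩ := hzb
    by_contra hcon
    have hcon' := not_lt.1 hcon
    have h1 := hmain z hzK v hv
    have hl2 : 0 ≤ (ℓ v) ^ 2 := by positivity
    by_cases hzO : z ∈ O
    · rw [hχO z hzO, one_mul] at h1
      have h2 := hunif z hzK v hv
      have h3 : M0 * (ℓ v) ^ 2 ≤ deriv (deriv Φ) (ℓ z / δ + θ) * (ℓ v) ^ 2 :=
        mul_le_mul_of_nonneg_right hcon' hl2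
      have h4 : m ≤ c0 / 2 := (min_le_left _ _).trans (min_le_left _ _)
      linarith
    · have h2 := hunif1 z ⟨hzK, hzO⟩ v hv
      simp only [ContinuousLinearMap.zero_apply] at h2
      have h3 : 0 ≤ χ z * (deriv (deriv Φ) (ℓ z / δ + θ) * (ℓ v) ^ 2) := by
        apply mul_nonneg (hχ0 z)
        apply mul_nonneg _ hl2
        linarith
      have h4 : m ≤ c1 / 2 := (min_le_left _ _).trans (min_le_right _ _)
      have h5 : M1 * (0:ℝ) ^ 2 = 0 := by ring
      linarith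

end Pool.Agent.Lib.MP_034ae1_an
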